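import Pool.Agent.H733Z.Col4

/-!
Graphs of girth at least `ℓ` and Euler genus at most `g` are `(0, O(g ^ c ℓ))`-colourable with
`c ℓ → 0`, for all `ℓ ≥ ℓ₀`, exactly when `ℓ₀ ≥ 7`.
-/

set_option autoImplicit false

namespace Pool.Agent.Results.MP_9b9b31_co.AGirthThreshold

open Pool.Agent.H733Z.Col

theorem result (ℓ₀ : ℕ) :
    (∃ c : ℕ → ℝ, (∀ ℓ, 0 < c ℓ) ∧ Filter.Tendsto c Filter.atTop (nhds 0) ∧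
      ∀ ℓ, ℓ₀ ≤ ℓ → ∃ C : ℝ, 0 < C ∧ ∀ g : ℕ, 1 ≤ g →
        ∀ (W : Type) [Finite W] (G : SimpleGraph W), (ℓ : ℕ∞) ≤ G.egirth → EmbedsEuler G g →
          ZeroKColorable G ⌊C * (g : ℝ) ^ c ℓ⌋₊) ↔ 7 ≤ ℓ₀ :=
  statement_iff ℓ₀

end Pool.Agent.Results.MP_9b9b31_co.AGirthThreshold
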